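import Mathlib

/-!
# The large sieve in several dimensions
-/

set_option autoImplicit false

namespace Pool.Agent.T9h58.NF

open Finset

/-- `e(t)` -/
noncomputable def ee (t : ℝ) : ℂ := Complex.exp (2 * Real.pi * t * Complex.I)

theorem ee_zero : ee 0 = 1 := by simp [ee]

theorem ee_add (s t : ℝ) : ee (s + t) = ee s * ee t := by
  rw [ee, ee, ee, ← Complex.exp_add]; congr 1; push_cast; ring

theorem norm_ee (t : ℝ) : ‖ee t‖ = 1 := by
  have h : (2 * Real.pi * t * Complex.I : ℂ) = ((2 * Real.pi * t : ℝ) : ℂ) * Complex.I := by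
    push_cast; ring
  rw [ee, h, Complex.norm_exp_ofReal_mul_I]

theorem ee_ne (t : ℝ) : ee t ≠ 0 := Complex.exp_ne_zero _

theorem ee_neg (t : ℝ) : ee (-t) = (starRingEnd ℂ) (ee t) := by
  rw [ee, ee, ← Complex.exp_conj]
  congr 1
  simp only [map_mul, Complex.conj_I, Complex.conj_ofReal, map_ofNat]
  push_cast
  ring

theorem ee_int (n : ℤ) : ee n = 1 := by
  rw [ee, Complex.exp_eq_one_iff]
  exact ⟨n, by push_cast; ring⟩

theorem ee_nat_mul (n : ℕ) (t : ℝ) : ee (n * t) = ee t ^ n := by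
  rw [ee, ee, ← Complex.exp_nat_mul]; congr 1; push_cast; ring

theorem ee_sum {ι : Type*} (s : Finset ι) (f : ι → ℝ) : ee (∑ i ∈ s, f i) = ∏ i ∈ s, ee (f i) := by
  classical
  induction s using Finset.induction_on with
  | empty => simp [ee_zero]
  | insert a s ha ih => rw [sum_insert ha, prod_insert ha, ee_add, ih]

/-- a lower bound for `|e(t) - 1|` -/
theorem norm_ee_sub_one {t : ℝ} (ht : |t| ≤ 1 / 2) : 4 * |t| ≤ ‖ee t - 1‖ := by
  have h : ee t = Complex.exp (Complex.I * ((2 * Real.pi * t : ℝ) : ℂ)) := by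
    rw [ee]; congr 1; push_cast; ring
  rw [h, Complex.norm_exp_I_mul_ofReal_sub_one, Real.norm_eq_abs, abs_mul, abs_two]
  have e : 2 * Real.pi * t / 2 = Real.pi * t := by ring
  rw [e]
  have key : 2 * |t| ≤ |Real.sin (Real.pi * t)| := by
    have h1 : |Real.sin (Real.pi * t)| = Real.sin (Real.pi * |t|) := by
      rcases le_total 0 t with h | h
      · rw [abs_of_nonneg h, abs_of_nonneg]
        rw [abs_of_nonneg h] at ht
        exact Real.sin_nonneg_of_nonneg_of_le_pi (by positivity)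
          (by nlinarith [Real.pi_pos])
      · rw [abs_of_nonpos h]
        rw [abs_of_nonpos h] at ht
        rw [show Real.pi * t = -(Real.pi * -t) by ring, Real.sin_neg, abs_neg, abs_of_nonneg]
        exact Real.sin_nonneg_of_nonneg_of_le_pi (by nlinarith [Real.pi_pos])
          (by nlinarith [Real.pi_pos])
    rw [h1]
    have h2 := Real.mul_le_sin (x := Real.pi * |t|) (by positivity)
      (by nlinarith [Real.pi_pos])
    have h3 : 2 / Real.pi * (Real.pi * |t|) = 2 * |t| := by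
      field_simp
    linarith
  linarith

/-- the Dirichlet kernel -/
noncomputable def Dk (L : ℕ) (t : ℝ) : ℂ := ∑ u ∈ range L, ee (u * t)

theorem Dk_le (L : ℕ) (t : ℝ) : ‖Dk L t‖ ≤ L := by
  refine (norm_sum_le _ _).trans ?_
  simp [norm_ee]

theorem Dk_shift (L : ℕ) (t : ℝ) (m : ℤ) : Dk L (t - m) = Dk L t := by
  refine sum_congr rfl fun u _ => ?_
  have : (u : ℝ) * (t - m) = u * t + ((-(u * m) : ℤ) : ℝ) := by push_cast; ring
  rw [this, ee_add, ee_int, mul_one]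

theorem Dk_mul {L : ℕ} {t : ℝ} (ht : |t| ≤ 1 / 2) : ‖Dk L t‖ * (2 * |t|) ≤ 1 := by
  have h : Dk L t * (ee t - 1) = ee t ^ L - 1 := by
    have : Dk L t = ∑ u ∈ range L, ee t ^ u := sum_congr rfl fun u _ => ee_nat_mul u t
    rw [this]
    exact geom_sum_mul _ _
  have h1 : ‖Dk L t‖ * ‖ee t - 1‖ ≤ 2 := by
    rw [← norm_mul, h]
    refine (norm_sub_le _ _).trans ?_
    rw [norm_pow, norm_ee]
    norm_num
  have h2 := norm_ee_sub_one ht
  have h3 := mul_le_mul_of_nonneg_left h2 (norm_nonneg (Dk L t))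
  nlinarith

theorem Dk_sq {L : ℕ} {t : ℝ} (ht : |t| ≤ 1 / 2) {x : ℝ} (hx0 : 0 ≤ x) (hx : x ≤ |t|) :
    ‖Dk L t‖ ^ 2 ≤ 2 * (L : ℝ) ^ 2 / (1 + 4 * (L : ℝ) ^ 2 * x ^ 2) := by
  have h1 := Dk_le L t
  have h2 := Dk_mul (L := L) ht
  have h0 := norm_nonneg (Dk L t)
  set y := ‖Dk L t‖
  have h3 : y * (2 * x) ≤ 1 := (mul_le_mul_of_nonneg_left (by linarith) h0).trans h2
  rw [le_div_iff₀ (by positivity)]
  have h4 : y ^ 2 ≤ (L : ℝ) ^ 2 := by nlinarith
  have h5 : (y * (2 * x)) ^ 2 ≤ 1 := by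
    have : 0 ≤ y * (2 * x) := by positivity
    nlinarith
  have h6 : (L : ℝ) ^ 2 * (y * (2 * x)) ^ 2 ≤ (L : ℝ) ^ 2 * 1 :=
    mul_le_mul_of_nonneg_left h5 (by positivity)
  nlinarith

/-- comparison of sums -/
theorem sum_le_of_injOn {ι κ : Type*} {s : Finset ι} {t : Finset κ} {f : ι → ℝ} {g : κ → ℝ}
    (e : ι → κ) (he : Set.InjOn e s) (hst : ∀ i ∈ s, e i ∈ t) (hg : ∀ k ∈ t, 0 ≤ g k)
    (hfg : ∀ i ∈ s, f i ≤ g (e i)) : ∑ i ∈ s, f i ≤ ∑ k ∈ t, g k := by
  classical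
  calc ∑ i ∈ s, f i ≤ ∑ i ∈ s, g (e i) := sum_le_sum hfg
    _ = ∑ k ∈ s.image e, g k := (sum_image he).symm
    _ ≤ ∑ k ∈ t, g k := sum_le_sum_of_subset_of_nonneg (image_subset_iff.2 hst)
        fun k hk _ => hg k hk

/-- a sum -/
theorem sum_cauchy {x : ℝ} (hx : 0 < x) (T : ℕ) :
    ∑ t ∈ range (T + 1), 1 / (1 + x ^ 2 * (t : ℝ) ^ 2) ≤ 1 + 2 / x := by
  have key : ∑ t ∈ range (T + 1), 1 / (1 + x ^ 2 * (t : ℝ) ^ 2) ≤
      1 + 2 / x - 2 / x * (1 / (1 + x * T)) := by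
    induction T with
    | zero => simp
    | succ T ih =>
      rw [sum_range_succ]
      have h1 : 1 / (1 + x ^ 2 * ((T + 1 : ℕ) : ℝ) ^ 2) ≤
          2 / x * (1 / (1 + x * T)) - 2 / x * (1 / (1 + x * ((T + 1 : ℕ) : ℝ))) := by
        push_cast
        have hT : (0 : ℝ) ≤ T := Nat.cast_nonneg T
        have e : 2 / x * (1 / (1 + x * T)) - 2 / x * (1 / (1 + x * (T + 1))) =
            2 / ((1 + x * T) * (1 + x * (T + 1))) := by
          field_simp
          ring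
        rw [e, div_le_div_iff₀ (by positivity) (by positivity)]
        nlinarith [mul_nonneg hx.le hT, sq_nonneg (1 - x * (T + 1)), mul_pos hx hx]
      linarith
  have : 0 ≤ 2 / x * (1 / (1 + x * T)) := by positivity
  linarith

/-- the packing bound for one coordinate -/
theorem sum_cells {L : ℕ} (hL : 0 < L) {δ : ℝ} (hδ : 0 < δ) (F : Finset ℤ) :
    ∑ q ∈ F, 2 * (L : ℝ) ^ 2 / (1 + 4 * (L : ℝ) ^ 2 *
      (δ * (max q (-q - 1) : ℤ)) ^ 2) ≤ 4 * L * (L + 1 / δ) := by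
  set T := F.sup Int.natAbs with hT
  have hL' : (0 : ℝ) < L := by exact_mod_cast hL
  have h1 : ∑ q ∈ F, 2 * (L : ℝ) ^ 2 / (1 + 4 * (L : ℝ) ^ 2 *
      (δ * (max q (-q - 1) : ℤ)) ^ 2) ≤ ∑ p ∈ range (T + 1) ×ˢ (univ : Finset Bool),
        2 * (L : ℝ) ^ 2 * (1 / (1 + (2 * L * δ) ^ 2 * (p.1 : ℝ) ^ 2)) := by
    refine sum_le_of_injOn (fun q => ((max q (-q - 1)).toNat, decide (0 ≤ q))) ?_ ?_ ?_ ?_
    · intro q _ q' _ h
      simp only [Prod.mk.injEq, decide_eq_decide] at h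
      omega
    · intro q hq
      have : q.natAbs ≤ T := le_sup (f := Int.natAbs) hq
      simp only [mem_product, mem_range, mem_univ, and_true]
      omega
    · intro p _
      positivity
    · intro q _
      have e : ((max q (-q - 1)).toNat : ℝ) = ((max q (-q - 1) : ℤ) : ℝ) := by
        have : (((max q (-q - 1)).toNat : ℤ)) = max q (-q - 1) := Int.toNat_of_nonneg (by omega)
        exact_mod_cast this
      simp only
      rw [e]
      apply le_of_eq
      rw [mul_one_div]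
      congr 2
      ring
  refine h1.trans ?_
  rw [sum_product]
  simp only [sum_const, card_univ, Fintype.card_bool, nsmul_eq_mul]
  have h2 := sum_cauchy (x := 2 * L * δ) (by positivity) T
  rw [← mul_sum, ← mul_sum]
  have h3 : (2 : ℝ) * (L : ℝ) ^ 2 * ∑ t ∈ range (T + 1), 1 / (1 + (2 * L * δ) ^ 2 * (t : ℝ) ^ 2) ≤
      2 * (L : ℝ) ^ 2 * (1 + 2 / (2 * L * δ)) := mul_le_mul_of_nonneg_left h2 (by positivity)
  have e : (4 * L * (L + 1 / δ) : ℝ) = 2 * (2 * (L : ℝ) ^ 2 * (1 + 2 / (2 * L * δ))) := by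
    field_simp
    ring
  rw [e]
  push_cast
  linarith

/-- the packing bound -/
theorem packing {R : Type} [Fintype R] {d L : ℕ} (hL : 0 < L) {δ : ℝ} (hδ : 0 < δ)
    (γ : R → Fin d → ℝ)
    (hγ : ∀ r s, r ≠ s → ∀ m : Fin d → ℤ, ∃ j, δ ≤ |γ r j - γ s j - m j|) :
    ∑ s, ∏ j, ‖Dk L (γ s j)‖ ^ 2 ≤ (4 * L * (L + 1 / δ)) ^ d := by
  classical
  let b : R → Fin d → ℝ := fun s j => γ s j - round (γ s j)
  let q : R → Fin d → ℤ := fun s j => ⌊b s j / δ⌋
  have hb : ∀ s j, |b s j| ≤ 1 / 2 := fun s j => abs_sub_round _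
  have hq : Function.Injective q := by
    intro r s hrs
    by_contra hne
    obtain ⟨j, hj⟩ := hγ r s hne fun j => round (γ r j) - round (γ s j)
    have h1 : ⌊b r j / δ⌋ = ⌊b s j / δ⌋ := congrFun hrs j
    have h2 := Int.abs_sub_lt_one_of_floor_eq_floor h1
    rw [← sub_div, abs_div, abs_of_pos hδ, div_lt_one hδ] at h2
    have e : γ r j - γ s j - ((round (γ r j) - round (γ s j) : ℤ) : ℝ) = b r j - b s j := by
      simp only [b]; push_cast; ring
    rw [e] at hj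
    linarith
  let F : Finset ℤ := univ.biUnion fun s => univ.image (q s)
  have hF : ∀ s j, q s j ∈ F := fun s j =>
    mem_biUnion.2 ⟨s, mem_univ _, mem_image.2 ⟨j, mem_univ _, rfl⟩⟩
  let H : ℤ → ℝ := fun k => 2 * (L : ℝ) ^ 2 / (1 + 4 * (L : ℝ) ^ 2 *
      (δ * (max k (-k - 1) : ℤ)) ^ 2)
  have hH : ∀ k, 0 ≤ H k := fun k => by positivity
  have h1 : ∀ s j, ‖Dk L (γ s j)‖ ^ 2 ≤ H (q s j) := by
    intro s j
    rw [← Dk_shift L (γ s j) (round (γ s j))]
    refine Dk_sq (hb s j) ?_ ?_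
    · refine mul_nonneg hδ.le ?_
      have : (0 : ℤ) ≤ max (q s j) (-q s j - 1) := by omega
      exact_mod_cast this
    · have f1 : (q s j : ℝ) ≤ b s j / δ := Int.floor_le _
      have f2 : b s j / δ < q s j + 1 := Int.lt_floor_add_one _
      rw [le_div_iff₀ hδ] at f1
      rw [div_lt_iff₀ hδ] at f2
      rw [Int.cast_max, mul_max_of_nonneg _ _ hδ.le]
      refine max_le ?_ ?_
      · refine le_trans ?_ (le_abs_self _)
        show δ * (q s j : ℝ) ≤ b s j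
        linarith
      · refine le_trans ?_ (neg_le_abs _)
        show δ * ((-q s j - 1 : ℤ) : ℝ) ≤ -(b s j)
        push_cast
        linarith
  calc ∑ s, ∏ j, ‖Dk L (γ s j)‖ ^ 2 ≤ ∑ k ∈ Fintype.piFinset (fun _ : Fin d => F), ∏ j, H (k j) :=
        sum_le_of_injOn q hq.injOn (fun s _ => Fintype.mem_piFinset.2 fun j => hF s j)
          (fun k _ => prod_nonneg fun j _ => hH _)
          fun s _ => prod_le_prod (fun j _ => by positivity) fun j _ => h1 s j
    _ = ∏ _j : Fin d, ∑ k ∈ F, H k := (prod_univ_sum (fun _ : Fin d => F) fun _ => H).symm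
    _ = (∑ k ∈ F, H k) ^ d := by simp
    _ ≤ _ := pow_le_pow_left₀ (sum_nonneg fun k _ => hH k) (sum_cells hL hδ F) d

/-- `n · α` -/
noncomputable def dt {d : ℕ} (n : Fin d → ℤ) (α : Fin d → ℝ) : ℝ := ∑ j, (n j : ℝ) * α j

/-- the cube -/
noncomputable def Bx (d N : ℕ) : Finset (Fin d → ℤ) := Fintype.piFinset fun _ => Icc (-(N : ℤ)) N

theorem dual_aux {R : Type} [Fintype R] {d : ℕ} (α : R → Fin d → ℝ) (L : ℕ) (c : R → ℂ) :
    ((∑ u ∈ Fintype.piFinset (fun _ : Fin d => range L),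
      ∑ v ∈ Fintype.piFinset (fun _ : Fin d => range L),
        ‖∑ r, c r * ee (dt (fun j => (u j : ℤ) - v j) (α r))‖ ^ 2 : ℝ) : ℂ) =
    ∑ r, ∑ s, c r * (starRingEnd ℂ) (c s) *
      ((∏ j, ‖Dk L (α r j - α s j)‖ ^ 2 : ℝ) : ℂ) := by
  have h1 : ∀ u v : Fin d → ℕ, ((‖∑ r, c r * ee (dt (fun j => (u j : ℤ) - v j) (α r))‖ ^ 2 : ℝ) : ℂ)
      = ∑ r, ∑ s, c r * (starRingEnd ℂ) (c s) *
        ((∏ j, ee (u j * (α r j - α s j))) * (starRingEnd ℂ) (∏ j, ee (v j * (α r j - α s j)))) := by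
    intro u v
    rw [← Complex.normSq_eq_norm_sq, ← Complex.mul_conj, map_sum, sum_mul_sum]
    refine sum_congr rfl fun r _ => sum_congr rfl fun s _ => ?_
    rw [map_mul, mul_mul_mul_comm]
    congr 1
    rw [← ee_sum, ← ee_sum, ← ee_neg, ← ee_neg, ← ee_add, ← ee_add]
    congr 1
    simp only [dt]
    rw [← sum_neg_distrib, ← sum_neg_distrib, ← sum_add_distrib, ← sum_add_distrib]
    refine sum_congr rfl fun j _ => ?_
    push_cast
    ring
  have h2 : ∀ r s, ∑ u ∈ Fintype.piFinset (fun _ : Fin d => range L),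
      ∑ v ∈ Fintype.piFinset (fun _ : Fin d => range L),
        ((∏ j, ee (u j * (α r j - α s j))) * (starRingEnd ℂ) (∏ j, ee (v j * (α r j - α s j)))) =
      ((∏ j, ‖Dk L (α r j - α s j)‖ ^ 2 : ℝ) : ℂ) := by
    intro r s
    rw [← sum_mul_sum, ← map_sum]
    have e : ∑ u ∈ Fintype.piFinset (fun _ : Fin d => range L),
        ∏ j, ee (u j * (α r j - α s j)) = ∏ j, Dk L (α r j - α s j) :=
      (prod_univ_sum (fun _ : Fin d => range L) fun j u => ee ((u : ℝ) * (α r j - α s j))).symm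
    rw [e, Complex.mul_conj, Complex.normSq_eq_norm_sq, norm_prod, ← prod_pow]
  push_cast at h1 h2 ⊢
  rw [sum_congr rfl fun u _ => sum_congr rfl fun v _ => h1 u v]
  rw [sum_congr rfl fun u _ => sum_comm, sum_comm]
  refine sum_congr rfl fun r _ => ?_
  rw [sum_congr rfl fun u _ => sum_comm, sum_comm]
  refine sum_congr rfl fun s _ => ?_
  rw [← h2 r s, mul_sum]
  refine sum_congr rfl fun u _ => ?_
  rw [mul_sum]

/-- the dual inequality -/
theorem dual {R : Type} [Fintype R] {d : ℕ} (α : R → Fin d → ℝ) {δ : ℝ} (hδ : 0 < δ)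
    (hα : ∀ r s, r ≠ s → ∀ m : Fin d → ℤ, ∃ j, δ ≤ |α r j - α s j - m j|) {N : ℕ} (hN : 1 ≤ N)
    (c : R → ℂ) :
    ∑ n ∈ Bx d N, ‖∑ r, c r * ee (dt n (α r))‖ ^ 2 ≤
      (24 * (N + 1 / δ)) ^ d * ∑ r, ‖c r‖ ^ 2 := by
  classical
  set L := 2 * N + 1 with hL
  have hL0 : 0 < L := by omega
  let P : Finset (Fin d → ℕ) := Fintype.piFinset (fun _ : Fin d => range L)
  let W : Finset (Fin d → ℕ) := Fintype.piFinset (fun _ : Fin d => range (N + 1))
  let S : (Fin d → ℤ) → ℝ := fun n => ‖∑ r, c r * ee (dt n (α r))‖ ^ 2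
  set M : ℝ := (4 * L * (L + 1 / δ)) ^ d with hM
  have h1 : ((N : ℝ) + 1) ^ d * ∑ n ∈ Bx d N, S n ≤ ∑ u ∈ P, ∑ v ∈ P, S fun j => (u j : ℤ) - v j := by
    have e : ((N : ℝ) + 1) ^ d * ∑ n ∈ Bx d N, S n = ∑ p ∈ Bx d N ×ˢ W, S p.1 := by
      rw [sum_product]
      simp only [sum_const, nsmul_eq_mul]
      rw [← mul_sum]
      congr 1
      simp [W, Fintype.card_piFinset]
    rw [e, ← sum_product']
    refine sum_le_of_injOn (fun p => (fun j => p.2 j + (p.1 j).toNat, fun j => p.2 j +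
      (-p.1 j).toNat)) ?_ ?_ (fun _ _ => by positivity) ?_
    · rintro ⟨n, w⟩ _ ⟨n', w'⟩ _ h
      simp only [Prod.mk.injEq] at h
      have h1 : ∀ j, n j = n' j ∧ w j = w' j := by
        intro j
        have a : w j + (n j).toNat = w' j + (n' j).toNat := congrFun h.1 j
        have b : w j + (-n j).toNat = w' j + (-n' j).toNat := congrFun h.2 j
        omega
      rw [Prod.mk.injEq]
      exact ⟨funext fun j => (h1 j).1, funext fun j => (h1 j).2⟩
    · rintro ⟨n, w⟩ h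
      rw [mem_product] at h
      have a := Fintype.mem_piFinset.1 h.1
      have b := Fintype.mem_piFinset.1 h.2
      simp only [mem_Icc, mem_range] at a b
      rw [mem_product]
      refine ⟨Fintype.mem_piFinset.2 fun j => ?_, Fintype.mem_piFinset.2 fun j => ?_⟩
      · have := a j; have := b j
        rw [mem_range]; simp only; omega
      · have := a j; have := b j
        rw [mem_range]; simp only; omega
    · rintro ⟨n, w⟩ _
      simp only
      apply le_of_eq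
      congr 1
      funext j
      push_cast
      omega
  have h2 : ∑ u ∈ P, ∑ v ∈ P, S (fun j => (u j : ℤ) - v j) ≤ M * ∑ r, ‖c r‖ ^ 2 := by
    have k0 : 0 ≤ ∑ u ∈ P, ∑ v ∈ P, S (fun j => (u j : ℤ) - v j) :=
      sum_nonneg fun u _ => sum_nonneg fun v _ => by positivity
    have k1 := congrArg norm (dual_aux α L c)
    rw [Complex.norm_real, Real.norm_of_nonneg k0] at k1
    show ∑ u ∈ P, ∑ v ∈ P, S (fun j => (u j : ℤ) - v j) ≤ _
    rw [k1]
    let K : R → R → ℝ := fun r s => ∏ j, ‖Dk L (α r j - α s j)‖ ^ 2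
    have hK : ∀ r s, 0 ≤ K r s := fun r s => prod_nonneg fun j _ => by positivity
    have k2 : ‖∑ r, ∑ s, c r * (starRingEnd ℂ) (c s) * ((K r s : ℝ) : ℂ)‖ ≤
        ∑ r, ∑ s, (‖c r‖ ^ 2 / 2 * K r s + ‖c s‖ ^ 2 / 2 * K r s) := by
      refine (norm_sum_le _ _).trans (sum_le_sum fun r _ => (norm_sum_le _ _).trans
        (sum_le_sum fun s _ => ?_))
      rw [norm_mul, norm_mul, RCLike.norm_conj, Complex.norm_real, Real.norm_of_nonneg (hK r s),
        ← add_mul]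
      refine mul_le_mul_of_nonneg_right ?_ (hK r s)
      nlinarith [sq_nonneg (‖c r‖ - ‖c s‖)]
    refine k2.trans ?_
    have k3 : ∀ r, ∑ s, K r s ≤ M := fun r => by
      refine packing hL0 hδ (fun s j => α r j - α s j) fun s t hst m => ?_
      obtain ⟨j, hj⟩ := hα t s (Ne.symm hst) m
      refine ⟨j, hj.trans (le_of_eq ?_)⟩
      congr 1; ring
    have k4 : ∀ s, ∑ r, K r s ≤ M := fun s => by
      refine packing hL0 hδ (fun r j => α r j - α s j) fun r t hrt m => ?_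
      obtain ⟨j, hj⟩ := hα r t hrt m
      refine ⟨j, hj.trans (le_of_eq ?_)⟩
      congr 1; ring
    simp only [sum_add_distrib]
    have k5 : ∑ r, ∑ s, ‖c r‖ ^ 2 / 2 * K r s ≤ ∑ r, ‖c r‖ ^ 2 / 2 * M :=
      sum_le_sum fun r _ => by
        rw [← mul_sum]
        exact mul_le_mul_of_nonneg_left (k3 r) (by positivity)
    have k6 : ∑ r, ∑ s, ‖c s‖ ^ 2 / 2 * K r s ≤ ∑ s, ‖c s‖ ^ 2 / 2 * M := by
      rw [sum_comm]
      refine sum_le_sum fun s _ => ?_
      rw [← mul_sum]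
      exact mul_le_mul_of_nonneg_left (k4 s) (by positivity)
    have k7 : ∑ r, ‖c r‖ ^ 2 / 2 * M + ∑ r, ‖c r‖ ^ 2 / 2 * M = M * ∑ r, ‖c r‖ ^ 2 := by
      rw [← sum_add_distrib, mul_sum]
      exact sum_congr rfl fun r _ => by ring
    linarith
  -- constants
  have hN' : (1 : ℝ) ≤ N := by exact_mod_cast hN
  have hd : 0 < 1 / δ := by positivity
  have h3 : M ≤ ((N : ℝ) + 1) ^ d * (24 * (N + 1 / δ)) ^ d := by
    rw [hM, ← mul_pow]
    refine pow_le_pow_left₀ (by positivity) ?_ d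
    rw [hL]
    push_cast
    have : (2 * (N : ℝ) + 1 + 1 / δ) ≤ 3 * (N + 1 / δ) := by linarith
    calc 4 * (2 * (N : ℝ) + 1) * (2 * N + 1 + 1 / δ)
        ≤ 4 * (2 * (N + 1)) * (3 * (N + 1 / δ)) := by
          refine mul_le_mul (by linarith) this (by positivity) (by positivity)
      _ = (N + 1) * (24 * (N + 1 / δ)) := by ring
  have h4 : 0 ≤ ∑ r, ‖c r‖ ^ 2 := sum_nonneg fun _ _ => by positivity
  have h5 : ((N : ℝ) + 1) ^ d * ∑ n ∈ Bx d N, S n ≤
      ((N : ℝ) + 1) ^ d * ((24 * (N + 1 / δ)) ^ d * ∑ r, ‖c r‖ ^ 2) := by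
    refine (h1.trans h2).trans ?_
    rw [← mul_assoc]
    exact mul_le_mul_of_nonneg_right h3 h4
  exact le_of_mul_le_mul_left h5 (by positivity)

/-- **The large sieve** in `d` dimensions. -/
theorem large_sieve {R : Type} [Fintype R] {d : ℕ} (α : R → Fin d → ℝ) {δ : ℝ} (hδ : 0 < δ)
    (hα : ∀ r s, r ≠ s → ∀ m : Fin d → ℤ, ∃ j, δ ≤ |α r j - α s j - m j|) {N : ℕ} (hN : 1 ≤ N)
    (a : (Fin d → ℤ) → ℂ) :
    ∑ r, ‖∑ n ∈ Bx d N, a n * ee (dt n (α r))‖ ^ 2 ≤
      (24 * (N + 1 / δ)) ^ d * ∑ n ∈ Bx d N, ‖a n‖ ^ 2 := by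
  let A : R → ℂ := fun r => ∑ n ∈ Bx d N, a n * ee (dt n (α r))
  set X := ∑ r, ‖A r‖ ^ 2 with hX
  set Y := ∑ n ∈ Bx d N, ‖a n‖ ^ 2 with hY
  set B : ℝ := (24 * (N + 1 / δ)) ^ d with hB
  have hX0 : 0 ≤ X := sum_nonneg fun _ _ => by positivity
  have hY0 : 0 ≤ Y := sum_nonneg fun _ _ => by positivity
  have hB0 : 0 ≤ B := by positivity
  show X ≤ B * Y
  have h1 : (X : ℂ) = ∑ n ∈ Bx d N, a n * ∑ r, (starRingEnd ℂ) (A r) * ee (dt n (α r)) := by
    rw [hX]
    push_cast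
    have : ∀ r, ((‖A r‖ : ℂ)) ^ 2 = ∑ n ∈ Bx d N, a n * ((starRingEnd ℂ) (A r) *
        ee (dt n (α r))) := by
      intro r
      have e : ((‖A r‖ : ℂ)) ^ 2 = A r * (starRingEnd ℂ) (A r) := by
        rw [Complex.mul_conj, Complex.normSq_eq_norm_sq]
        push_cast
        rfl
      rw [e]
      conv_lhs => rw [show A r = ∑ n ∈ Bx d N, a n * ee (dt n (α r)) from rfl]
      rw [sum_mul]
      refine sum_congr rfl fun n _ => ?_
      ring
    rw [sum_congr rfl fun r _ => this r, sum_comm]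
    refine sum_congr rfl fun n _ => ?_
    rw [mul_sum]
  have h2 : X ≤ ∑ n ∈ Bx d N, ‖a n‖ * ‖∑ r, (starRingEnd ℂ) (A r) * ee (dt n (α r))‖ := by
    have := congrArg norm h1
    rw [Complex.norm_real, Real.norm_of_nonneg hX0] at this
    rw [this]
    refine (norm_sum_le _ _).trans (sum_le_sum fun n _ => ?_)
    rw [norm_mul]
  have h3 := dual α hδ hα hN fun r => (starRingEnd ℂ) (A r)
  simp only [RCLike.norm_conj] at h3
  have h4 := sum_mul_sq_le_sq_mul_sq (Bx d N) (fun n => ‖a n‖)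
    fun n => ‖∑ r, (starRingEnd ℂ) (A r) * ee (dt n (α r))‖
  have h5 : X ^ 2 ≤ Y * (B * X) := by
    refine (pow_le_pow_left₀ hX0 h2 2).trans (h4.trans ?_)
    exact mul_le_mul_of_nonneg_left h3 hY0
  rcases hX0.eq_or_lt with h | h
  · rw [← h]; positivity
  · have h6 : X * X ≤ (B * Y) * X := by nlinarith
    exact le_of_mul_le_mul_right h6 h

end Pool.Agent.T9h58.NF
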