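import Pool.Agent.T9h91.NF.Geom
import Pool.Agent.T9h58.NF.LS

/-!
# The large sieve for number fields
-/

set_option autoImplicit false

namespace Pool.Agent.T9h58.NF

open Finset NumberField NumberField.mixedEmbedding Module
open Pool.Agent.T9h91.NF
open scoped Classical

variable {K : Type*} [Field K] [NumberField K]

/-- the linear form with the coefficients `β` -/
noncomputable def lf (β : Ib K → ℝ) (x : 𝓞 K) : ℝ := ∑ i, (co x i : ℝ) * β i

theorem lf_add (β : Ib K → ℝ) (x y : 𝓞 K) : lf β (x + y) = lf β x + lf β y := by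
  simp only [lf, co_add, Int.cast_add, add_mul, sum_add_distrib]

theorem lf_zero (β : Ib K → ℝ) : lf β (0 : 𝓞 K) = 0 := by
  have := lf_add β (0 : 𝓞 K) 0
  rw [add_zero] at this
  linarith

/-- the linear form as a homomorphism -/
noncomputable def lfh (β : Ib K → ℝ) : 𝓞 K →+ ℝ where
  toFun := lf β
  map_zero' := lf_zero β
  map_add' := lf_add β

theorem lf_basis (β : Ib K → ℝ) (j : Ib K) : lf β (RingOfIntegers.basis K j) = β j := by
  have h : ∀ i, co (RingOfIntegers.basis K j) i = if j = i then 1 else 0 := by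
    intro i
    rw [co, Basis.repr_self, Finsupp.single_apply]
  simp only [lf, h]
  simp

/-- a linear form that vanishes on the multiples of `a ≠ 0` is zero -/
theorem lf_eq_zero {β : Ib K → ℝ} {a : 𝓞 K} (ha : a ≠ 0)
    (h : ∀ j, lf β (a * RingOfIntegers.basis K j) = 0) (y : 𝓞 K) : lf β y = 0 := by
  have h1 : ∀ x, lf β (a * x) = 0 := by
    intro x
    have e : lf β (a * x) = lfh β (a * x) := rfl
    rw [e]
    conv_lhs => rw [co_sum x]
    rw [mul_sum, map_sum]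
    refine sum_eq_zero fun i _ => ?_
    rw [mul_smul_comm, map_zsmul]
    have : lfh β (a * RingOfIntegers.basis K i) = 0 := h i
    rw [this, smul_zero]
  have h2 : (Ideal.absNorm (Ideal.span {a}) : 𝓞 K) ∈ Ideal.span {a} := Ideal.absNorm_mem _
  obtain ⟨b, hb⟩ := Ideal.mem_span_singleton'.1 h2
  have h3 : lf β ((Ideal.absNorm (Ideal.span {a}) : 𝓞 K) * y) = 0 := by
    rw [← hb, show b * a * y = a * (b * y) by ring]
    exact h1 _
  have h4 : lf β ((Ideal.absNorm (Ideal.span {a}) : 𝓞 K) * y) =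
      (Ideal.absNorm (Ideal.span {a}) : ℝ) * lf β y := by
    have e : ((Ideal.absNorm (Ideal.span {a}) : 𝓞 K) * y) =
        (Ideal.absNorm (Ideal.span {a})) • y := by rw [nsmul_eq_mul]
    rw [e]
    exact (map_nsmul (lfh β) (Ideal.absNorm (Ideal.span {a})) y).trans (nsmul_eq_mul _ _)
  rw [h4] at h3
  rcases mul_eq_zero.1 h3 with h5 | h5
  · exfalso
    have h6 : Ideal.absNorm (Ideal.span {a}) = 0 := by exact_mod_cast h5
    rw [Ideal.absNorm_eq_zero_iff, Ideal.span_singleton_eq_bot] at h6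
    exact ha h6
  · exact h5

theorem rt_mul (I J : Ideal (𝓞 K)) : rt (I * J) = rt I * rt J := by
  unfold rt
  rw [map_mul, Nat.cast_mul, Real.mul_rpow (Nat.cast_nonneg _) (Nat.cast_nonneg _)]

theorem mul_ne_bot {I J : Ideal (𝓞 K)} (hI : I ≠ ⊥) (hJ : J ≠ ⊥) : I * J ≠ ⊥ := by
  intro h
  rcases Ideal.mul_eq_bot.1 h with h | h
  · exact hI h
  · exact hJ h

theorem psi_sum (ψ : AddChar (𝓞 K) ℂ) {ι : Type*} (s : Finset ι) (f : ι → 𝓞 K) :
    ψ (∑ i ∈ s, f i) = ∏ i ∈ s, ψ (f i) := by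
  induction s using Finset.induction_on with
  | empty => simp
  | insert a s ha ih => rw [sum_insert ha, prod_insert ha, AddChar.map_add_eq_mul, ih]

/-- characters -/
theorem exists_theta {ψ : AddChar (𝓞 K) ℂ} {I : Ideal (𝓞 K)} (hI : I ≠ ⊥)
    (h : ∀ x ∈ I, ψ x = 1) : ∃ θ : Ib K → ℝ, ∀ x, ψ x = ee (lf θ x) := by
  have h1 : ∀ j : Ib K, ∃ t : ℝ, ψ (RingOfIntegers.basis K j) = ee t := by
    intro j
    set z := ψ (RingOfIntegers.basis K j) with hz
    have hN : (Ideal.absNorm I) ≠ 0 := (absNorm_pos hI).ne'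
    have hz1 : z ^ (Ideal.absNorm I) = 1 := by
      rw [hz, ← AddChar.map_nsmul_eq_pow, nsmul_eq_mul]
      exact h _ (I.mul_mem_right _ (Ideal.absNorm_mem I))
    have hz2 : ‖z‖ = 1 := Complex.norm_eq_one_of_pow_eq_one hz1 hN
    refine ⟨Complex.arg z / (2 * Real.pi), ?_⟩
    have h2 := Complex.norm_mul_exp_arg_mul_I z
    rw [hz2, Complex.ofReal_one, one_mul] at h2
    rw [← h2, ee]
    congr 1
    have : (Real.pi : ℂ) ≠ 0 := by exact_mod_cast Real.pi_ne_zero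
    rw [h2]
    push_cast
    field_simp
  choose θ hθ using h1
  refine ⟨θ, fun x => ?_⟩
  have h3 : ∀ (n : ℤ) (y : 𝓞 K) (t : ℝ), ψ y = ee t → ψ (n • y) = ee (n * t) := by
    intro n y t hy
    have hnat : ∀ m : ℕ, ψ (m • y) = ee (m * t) := by
      intro m
      rw [AddChar.map_nsmul_eq_pow, hy, ee_nat_mul]
    rcases Int.eq_nat_or_neg n with ⟨m, rfl | rfl⟩
    · have := hnat m
      rw [natCast_zsmul]
      push_cast
      exact this
    · rw [neg_smul, natCast_zsmul, AddChar.map_neg_eq_inv, hnat m]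
      push_cast
      rw [neg_mul]
      exact (eq_inv_of_mul_eq_one_left (by rw [← ee_add, neg_add_cancel, ee_zero])).symm
  conv_lhs => rw [co_sum x]
  rw [psi_sum]
  rw [lf, ee_sum]
  exact prod_congr rfl fun i _ => h3 _ _ _ (hθ i)

theorem int_of_ee {t : ℝ} (h : ee t = 1) : ∃ k : ℤ, t = k := by
  rw [ee, Complex.exp_eq_one_iff] at h
  obtain ⟨k, hk⟩ := h
  refine ⟨k, ?_⟩
  have hpi : (2 * Real.pi * Complex.I : ℂ) ≠ 0 := by
    have : (Real.pi : ℂ) ≠ 0 := by exact_mod_cast Real.pi_ne_zero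
    simp [this]
  have : ((t : ℝ) : ℂ) = (k : ℂ) := by
    apply mul_right_cancel₀ hpi
    rw [← hk]
    ring
  exact_mod_cast this

theorem lf_le {β : Ib K → ℝ} {δ M : ℝ} (hM : 0 ≤ M) (hβ : ∀ i, |β i| < δ) {y : 𝓞 K}
    (hy : ∀ i, |(co y i : ℝ)| ≤ M) : |lf β y| ≤ (Fintype.card (Ib K) : ℝ) * (M * δ) := by
  calc |lf β y| ≤ ∑ i, |(co y i : ℝ) * β i| := abs_sum_le_sum_abs _ _
    _ ≤ ∑ _i : Ib K, M * δ := by
        refine sum_le_sum fun i _ => ?_
        rw [abs_mul]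
        exact mul_le_mul (hy i) (hβ i).le (abs_nonneg _) hM
    _ = _ := by rw [sum_const, card_univ, nsmul_eq_mul]

theorem lf_split (θ θ' : Ib K → ℝ) (m : Ib K → ℤ) (y : 𝓞 K) :
    ee (lf θ y) = ee (lf θ' y) * ee (lf (fun i => θ i - θ' i - m i) y) := by
  have e : lf θ y = lf θ' y + lf (fun i => θ i - θ' i - m i) y +
      ((∑ i, co y i * m i : ℤ) : ℝ) := by
    simp only [lf]
    push_cast
    rw [← sum_add_distrib, ← sum_add_distrib]
    exact sum_congr rfl fun i _ => by ring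
  rw [e, ee_add, ee_int, mul_one, ee_add]

variable (K) in
theorem exists_basis_bound : ∃ B : ℝ, 1 ≤ B ∧ ∀ j, nm (RingOfIntegers.basis K j) ≤ B := by
  refine ⟨1 + ∑ i, nm (RingOfIntegers.basis K i), ?_, fun j => ?_⟩
  · have : 0 ≤ ∑ i, nm (RingOfIntegers.basis K i) := sum_nonneg fun _ _ => nm_nonneg _
    linarith
  · have := single_le_sum (f := fun i => nm (RingOfIntegers.basis K i))
      (fun i _ => nm_nonneg _) (mem_univ j)
    linarith

variable (K) in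
/-- small elements, all multiples by the basis -/
theorem exists_small_basis : ∃ C : ℝ, 1 ≤ C ∧ ∀ I : Ideal (𝓞 K), I ≠ ⊥ → ∃ a : 𝓞 K, a ≠ 0 ∧
    (∀ j, a * RingOfIntegers.basis K j ∈ I) ∧
    ∀ i j, |(co (a * RingOfIntegers.basis K j) i : ℝ)| ≤ C * rt I := by
  obtain ⟨C₀, hC₀, h0, -⟩ := exists_equiv K
  obtain ⟨C₁, hC₁, h1⟩ := exists_small K
  obtain ⟨B, hB, h2⟩ := exists_basis_bound K
  refine ⟨C₀ * (C₁ * B), ?_, fun I hI => ?_⟩
  · have : 1 ≤ C₁ * B := by nlinarith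
    nlinarith
  obtain ⟨a, haI, ha0, ha⟩ := h1 I hI
  refine ⟨a, ha0, fun j => I.mul_mem_right _ haI, fun i j => (h0 _ i).trans ?_⟩
  rw [mul_assoc]
  refine mul_le_mul_of_nonneg_left ?_ (by linarith)
  refine (nm_mul_le _ _).trans ?_
  calc nm a * nm (RingOfIntegers.basis K j) ≤ (C₁ * rt I) * B :=
        mul_le_mul ha (h2 j) (nm_nonneg _) (by have := rt_nonneg I; positivity)
    _ = C₁ * B * rt I := by ring

variable (K) in
/-- **Separation** of characters. -/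
theorem exists_sep : ∃ C : ℝ, 1 ≤ C ∧ ∀ (I J : Ideal (𝓞 K)), I ≠ ⊥ → J ≠ ⊥ →
    ∀ (θ θ' : Ib K → ℝ), (∀ x ∈ I, ee (lf θ x) = 1) → (∀ x ∈ J, ee (lf θ' x) = 1) →
    ∀ (δ : ℝ), C * (rt I * rt J) * δ < 1 → ∀ m : Ib K → ℤ, (∀ i, |θ i - θ' i - m i| < δ) →
    ∀ x : 𝓞 K, ee (lf θ x) = ee (lf θ' x) := by
  obtain ⟨C₀, hC₀, h0⟩ := exists_small_basis K
  have hn1 : (1 : ℝ) ≤ Fintype.card (Ib K) := by
    rw [card_Ib]
    exact_mod_cast dg_pos
  refine ⟨(Fintype.card (Ib K) : ℝ) * C₀, by nlinarith, ?_⟩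
  intro I J hI hJ θ θ' hθ hθ' δ hδ m hm x
  obtain ⟨a, ha0, haI, ha⟩ := h0 (I * J) (mul_ne_bot hI hJ)
  have hrI := rt_nonneg I
  have hrJ := rt_nonneg J
  have hIJ : I * J ≤ I := Ideal.mul_le_left
  have hJI : I * J ≤ J := Ideal.mul_le_right
  have m1 : ∀ j, ee (lf θ (a * RingOfIntegers.basis K j)) = 1 := fun j => hθ _ (hIJ (haI j))
  have m2 : ∀ j, ee (lf θ' (a * RingOfIntegers.basis K j)) = 1 := fun j => hθ' _ (hJI (haI j))
  have hβ0 : ∀ y : 𝓞 K, lf (fun i => θ i - θ' i - m i) y = 0 := by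
    refine lf_eq_zero ha0 fun j => ?_
    have e1 := lf_split θ θ' m (a * RingOfIntegers.basis K j)
    rw [m1 j, m2 j, one_mul] at e1
    obtain ⟨k, hk⟩ := int_of_ee e1.symm
    have h3 : |lf (fun i => θ i - θ' i - m i) (a * RingOfIntegers.basis K j)| < 1 := by
      refine lt_of_le_of_lt (lf_le (M := C₀ * (rt I * rt J)) (by positivity) hm fun i => ?_) ?_
      · have := ha i j
        rwa [rt_mul] at this
      · calc (Fintype.card (Ib K) : ℝ) * (C₀ * (rt I * rt J) * δ) =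
            (Fintype.card (Ib K) : ℝ) * C₀ * (rt I * rt J) * δ := by ring
          _ < 1 := hδ
    rw [hk] at h3 ⊢
    have h4 : |k| < 1 := by exact_mod_cast h3
    rw [Int.abs_lt_one_iff] at h4
    exact_mod_cast h4
  rw [lf_split θ θ' m x, hβ0 x, ee_zero, mul_one]

variable (K) in
/-- **(G6)** the large sieve for `𝓞 K`. -/
theorem large_sieve_K : ∃ C : ℝ, 1 ≤ C ∧ ∀ (R : Type) [Fintype R] (ψ : R → AddChar (𝓞 K) ℂ)
    (q D : ℝ), 1 ≤ q → 1 ≤ D → Function.Injective ψ →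
    (∀ r, ∃ I : Ideal (𝓞 K), I ≠ ⊥ ∧ rt I ≤ q ∧ ∀ x ∈ I, ψ r x = 1) →
    ∀ (S : Finset (𝓞 K)) (a : 𝓞 K → ℂ), (∀ x ∈ S, nm x ≤ D) →
      ∑ r, ‖∑ x ∈ S, a x * ψ r x‖ ^ 2 ≤ C * (D + q ^ 2) ^ dg K * ∑ x ∈ S, ‖a x‖ ^ 2 := by
  obtain ⟨C₀, hC₀, h0, -⟩ := exists_equiv K
  obtain ⟨C₁, hC₁, h1⟩ := exists_sep K
  refine ⟨(24 * (C₀ + 1 + 2 * C₁)) ^ dg K, one_le_pow₀ (by linarith), ?_⟩
  intro R _ ψ q D hq hD hψ hI S a hS
  choose I hI0 hIq hI1 using hI
  choose θ hθ using fun r => exists_theta (hI0 r) (hI1 r)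
  -- coordinates
  obtain ⟨e⟩ : Nonempty (Fin (dg K) ≃ Ib K) := ⟨(Fintype.equivFinOfCardEq card_Ib).symm⟩
  let vec : 𝓞 K → Fin (dg K) → ℤ := fun x j => co x (e j)
  let inv : (Fin (dg K) → ℤ) → 𝓞 K := fun n => ∑ i, n (e.symm i) • RingOfIntegers.basis K i
  have hinv : ∀ x, inv (vec x) = x := by
    intro x
    conv_rhs => rw [co_sum x]
    simp [inv, vec]
  have hvec : Function.Injective vec := Function.LeftInverse.injective hinv
  let α : R → Fin (dg K) → ℝ := fun r j => θ r (e j)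
  have hdt : ∀ r x, ψ r x = ee (dt (vec x) (α r)) := by
    intro r x
    rw [hθ r x]
    congr 1
    simp only [lf, dt, vec, α]
    exact (Equiv.sum_comp e fun i => (co x i : ℝ) * θ r i).symm
  set N : ℕ := ⌈C₀ * D⌉₊ with hN
  have hN0 : C₀ * D ≤ N := Nat.le_ceil _
  have hN1 : (N : ℝ) < C₀ * D + 1 := Nat.ceil_lt_add_one (by positivity)
  have hNpos : 1 ≤ N := by
    rw [hN, Nat.one_le_ceil_iff]
    positivity
  set δ : ℝ := 1 / (2 * C₁ * q ^ 2) with hδ
  have hδ0 : 0 < δ := by positivity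
  have hsep : ∀ r s, r ≠ s → ∀ m : Fin (dg K) → ℤ, ∃ j, δ ≤ |α r j - α s j - m j| := by
    intro r s hrs m
    by_contra hcon
    push Not at hcon
    apply hrs
    apply hψ
    ext x
    rw [hθ r x, hθ s x]
    refine h1 (I r) (I s) (hI0 r) (hI0 s) (θ r) (θ s) (fun y hy => ?_) (fun y hy => ?_) δ ?_
      (fun i => m (e.symm i)) (fun i => ?_) x
    · rw [← hθ r y]; exact hI1 r y hy
    · rw [← hθ s y]; exact hI1 s y hy
    · have g1 : rt (I r) * rt (I s) ≤ q * q :=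
        mul_le_mul (hIq r) (hIq s) (rt_nonneg _) (by linarith)
      calc C₁ * (rt (I r) * rt (I s)) * δ ≤ C₁ * (q * q) * δ :=
            mul_le_mul_of_nonneg_right (mul_le_mul_of_nonneg_left g1 (by linarith)) hδ0.le
        _ = 1 / 2 := by
            rw [hδ]
            field_simp
        _ < 1 := by norm_num
    · have := hcon (e.symm i)
      simp only [α, Equiv.apply_symm_apply] at this
      exact this
  set T := S.image vec with hT
  have hTB : T ⊆ Bx (dg K) N := by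
    intro n hn
    obtain ⟨x, hx, rfl⟩ := mem_image.1 hn
    refine Fintype.mem_piFinset.2 fun j => ?_
    have g1 : |(co x (e j) : ℝ)| ≤ N :=
      ((h0 x (e j)).trans (mul_le_mul_of_nonneg_left (hS x hx) (by linarith))).trans hN0
    have g2 : |co x (e j)| ≤ (N : ℤ) := by exact_mod_cast g1
    rw [mem_Icc]
    exact abs_le.1 g2
  let b : (Fin (dg K) → ℤ) → ℂ := fun n => if n ∈ T then a (inv n) else 0
  have k1 : ∀ r, ∑ n ∈ Bx (dg K) N, b n * ee (dt n (α r)) = ∑ x ∈ S, a x * ψ r x := by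
    intro r
    have g1 : ∑ n ∈ Bx (dg K) N, b n * ee (dt n (α r)) = ∑ n ∈ T, a (inv n) * ee (dt n (α r)) := by
      rw [← sum_subset hTB]
      · exact sum_congr rfl fun n hn => by simp only [b, if_pos hn]
      · intro n _ hn
        simp only [b, if_neg hn, zero_mul]
    rw [g1, hT, sum_image hvec.injOn]
    exact sum_congr rfl fun x _ => by rw [hinv, hdt r x]
  have k2 : ∑ n ∈ Bx (dg K) N, ‖b n‖ ^ 2 = ∑ x ∈ S, ‖a x‖ ^ 2 := by
    have g1 : ∑ n ∈ Bx (dg K) N, ‖b n‖ ^ 2 = ∑ n ∈ T, ‖a (inv n)‖ ^ 2 := by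
      rw [← sum_subset hTB]
      · exact sum_congr rfl fun n hn => by simp only [b, if_pos hn]
      · intro n _ hn
        simp only [b, if_neg hn, norm_zero]
        norm_num
    rw [g1, hT, sum_image hvec.injOn]
    exact sum_congr rfl fun x _ => by rw [hinv]
  have k3 := large_sieve α hδ0 hsep hNpos b
  rw [k2, sum_congr rfl fun r _ => by rw [k1 r]] at k3
  refine k3.trans (mul_le_mul_of_nonneg_right ?_ (sum_nonneg fun _ _ => by positivity))
  rw [← mul_pow]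
  refine pow_le_pow_left₀ (by positivity) ?_ _
  have k4 : 1 / δ = 2 * C₁ * q ^ 2 := by rw [hδ, one_div_one_div]
  rw [k4]
  have k5 : (0 : ℝ) ≤ q ^ 2 := by positivity
  nlinarith

variable (K) in
/-- the large sieve, with the norms of the ideals. -/
theorem large_sieve_norm : ∃ C : ℝ, 1 ≤ C ∧ ∀ (R : Type) [Fintype R]
    (ψ : R → AddChar (𝓞 K) ℂ) (Q D : ℝ), 1 ≤ Q → 1 ≤ D → Function.Injective ψ →
    (∀ r, ∃ I : Ideal (𝓞 K), I ≠ ⊥ ∧ (Ideal.absNorm I : ℝ) ≤ Q ∧ ∀ x ∈ I, ψ r x = 1) →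
    ∀ (S : Finset (𝓞 K)) (a : 𝓞 K → ℂ), (∀ x ∈ S, nm x ≤ D) →
      ∑ r, ‖∑ x ∈ S, a x * ψ r x‖ ^ 2 ≤ C * (D ^ dg K + Q ^ 2) * ∑ x ∈ S, ‖a x‖ ^ 2 := by
  obtain ⟨C, hC, h⟩ := large_sieve_K K
  refine ⟨C * 2 ^ dg K, one_le_mul_of_one_le_of_one_le hC (one_le_pow₀ (by norm_num)), ?_⟩
  intro R _ ψ Q D hQ hD hψ hI S a hS
  set q : ℝ := Q ^ ((1 : ℝ) / (dg K : ℝ)) with hq
  have hqd : q ^ dg K = Q := by
    rw [hq, ← Real.rpow_natCast, ← Real.rpow_mul (by linarith)]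
    have : ((dg K : ℕ) : ℝ) ≠ 0 := by exact_mod_cast dg_pos.ne'
    rw [one_div_mul_cancel this, Real.rpow_one]
  have hq1 : 1 ≤ q := Real.one_le_rpow hQ (by positivity)
  have k := h R ψ q D hq1 hD hψ (fun r => by
    obtain ⟨I, h1, h2, h3⟩ := hI r
    exact ⟨I, h1, Real.rpow_le_rpow (by positivity) h2 (by positivity), h3⟩) S a hS
  refine k.trans (mul_le_mul_of_nonneg_right ?_ (sum_nonneg fun _ _ => by positivity))
  rw [mul_assoc]
  refine mul_le_mul_of_nonneg_left ?_ (by linarith)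
  have k1 : (D + q ^ 2) ≤ 2 * max D (q ^ 2) := by
    have := le_max_left D (q ^ 2)
    have := le_max_right D (q ^ 2)
    linarith
  refine (pow_le_pow_left₀ (by positivity) k1 _).trans ?_
  rw [mul_pow]
  refine mul_le_mul_of_nonneg_left ?_ (by positivity)
  have k2 : (q ^ 2) ^ dg K = Q ^ 2 := by rw [← pow_mul, mul_comm, pow_mul, hqd]
  rcases le_total D (q ^ 2) with h' | h'
  · rw [max_eq_right h', k2]
    have : 0 ≤ D ^ dg K := by positivity
    linarith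
  · rw [max_eq_left h']
    have : 0 ≤ Q ^ 2 := by positivity
    linarith

end Pool.Agent.T9h58.NF
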