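import Pool.Agent.T9h11.NF.Spec2
import Pool.Agent.T9h58.NF.Sep

/-!
# The large sieve for `𝓞 K`, as stated in the specification
-/

set_option autoImplicit false

namespace Pool.Agent.T9h58.NF

open Finset NumberField NumberField.mixedEmbedding Module
open scoped Classical

/-- (LSd) -/
theorem lSd : Pool.Agent.T9h11.NF.LSd := by
  intro d
  refine ⟨48 ^ d, one_le_pow₀ (by norm_num), ?_⟩
  intro N δ ι _ θ hN hδ hδ1 hsep S a hS
  set M : ℕ := ⌈N⌉₊ with hM
  have hM0 : N ≤ M := Nat.le_ceil _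
  have hM1 : (M : ℝ) < N + 1 := Nat.ceil_lt_add_one (by linarith)
  have hMpos : 1 ≤ M := Nat.one_le_ceil_iff.2 (by linarith)
  have hSB : S ⊆ Bx d M := by
    intro n hn
    refine Fintype.mem_piFinset.2 fun j => ?_
    have g1 : |(n j : ℝ)| ≤ M := (hS n hn j).trans hM0
    have g2 : |n j| ≤ (M : ℤ) := by exact_mod_cast g1
    rw [mem_Icc]
    exact abs_le.1 g2
  let b : (Fin d → ℤ) → ℂ := fun n => if n ∈ S then a n else 0
  have k1 : ∀ i, ∑ n ∈ Bx d M, b n * ee (dt n (θ i)) = ∑ n ∈ S, a n *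
      Complex.exp (2 * Real.pi * Complex.I * ((∑ k, (n k : ℝ) * θ i k : ℝ) : ℂ)) := by
    intro i
    rw [← sum_subset hSB]
    · refine sum_congr rfl fun n hn => ?_
      simp only [b, if_pos hn]
      congr 1
      rw [ee, dt]
      congr 1
      ring
    · intro n _ hn
      simp only [b, if_neg hn, zero_mul]
  have k2 : ∑ n ∈ Bx d M, ‖b n‖ ^ 2 = ∑ n ∈ S, ‖a n‖ ^ 2 := by
    rw [← sum_subset hSB]
    · exact sum_congr rfl fun n hn => by simp only [b, if_pos hn]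
    · intro n _ hn
      simp only [b, if_neg hn, norm_zero]
      norm_num
  have k3 := large_sieve θ hδ hsep hMpos b
  rw [k2, sum_congr rfl fun r _ => by rw [k1 r]] at k3
  refine k3.trans (mul_le_mul_of_nonneg_right ?_ (sum_nonneg fun _ _ => by positivity))
  rw [← mul_pow]
  refine pow_le_pow_left₀ (by positivity) ?_ _
  have k5 : (0 : ℝ) < 1 / δ := by positivity
  linarith

variable {K : Type} [Field K] [NumberField K]

theorem exists_theta' {ψ : AddChar (𝓞 K) ℂ} (h : ∀ x, ‖ψ x‖ = 1) :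
    ∃ θ : T9h91.NF.Ib K → ℝ, ∀ x, ψ x = ee (lf θ x) := by
  have h1 : ∀ j : T9h91.NF.Ib K, ∃ t : ℝ, ψ (RingOfIntegers.basis K j) = ee t := by
    intro j
    obtain ⟨z, hz⟩ : ∃ z, z = ψ (RingOfIntegers.basis K j) := ⟨_, rfl⟩
    rw [← hz]
    have hz2 : ‖z‖ = 1 := by rw [hz]; exact h _
    refine ⟨Complex.arg z / (2 * Real.pi), ?_⟩
    have h2 := Complex.norm_mul_exp_arg_mul_I z
    rw [hz2, Complex.ofReal_one, one_mul] at h2
    conv_lhs => rw [← h2]
    rw [ee]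
    congr 1
    have : (Real.pi : ℂ) ≠ 0 := by exact_mod_cast Real.pi_ne_zero
    push_cast
    field_simp
  choose θ hθ using h1
  refine ⟨θ, fun x => ?_⟩
  have h3 : ∀ (n : ℤ) (y : 𝓞 K) (t : ℝ), ψ y = ee t → ψ (n • y) = ee (n * t) := by
    intro n y t hy
    have hnat : ∀ m : ℕ, ψ (m • y) = ee (m * t) := by
      intro m
      rw [AddChar.map_nsmul_eq_pow, hy, ee_nat_mul]
    rcases Int.eq_nat_or_neg n with ⟨m, rfl | rfl⟩
    · have := hnat m
      rw [natCast_zsmul]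
      push_cast
      exact this
    · rw [neg_smul, natCast_zsmul, AddChar.map_neg_eq_inv, hnat m]
      push_cast
      rw [neg_mul]
      exact (eq_inv_of_mul_eq_one_left (by rw [← ee_add, neg_add_cancel, ee_zero])).symm
  conv_lhs => rw [T9h91.NF.co_sum x]
  rw [psi_sum]
  rw [lf, ee_sum]
  exact prod_congr rfl fun i _ => h3 _ _ _ (hθ i)

variable (K) in
/-- **Separation** of characters that agree on an ideal. -/
theorem exists_sep' : ∃ C : ℝ, 1 ≤ C ∧ ∀ (I : Ideal (𝓞 K)), I ≠ ⊥ →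
    ∀ (θ θ' : T9h91.NF.Ib K → ℝ), (∀ x ∈ I, ee (lf θ x) = ee (lf θ' x)) →
    ∀ (δ : ℝ), C * T9h91.NF.rt I * δ < 1 → ∀ m : T9h91.NF.Ib K → ℤ,
    (∀ i, |θ i - θ' i - m i| < δ) → ∀ x : 𝓞 K, ee (lf θ x) = ee (lf θ' x) := by
  obtain ⟨C₀, hC₀, h0⟩ := exists_small_basis K
  have hn1 : (1 : ℝ) ≤ Fintype.card (T9h91.NF.Ib K) := by
    rw [T9h91.NF.card_Ib]
    exact_mod_cast T9h91.NF.dg_pos
  refine ⟨(Fintype.card (T9h91.NF.Ib K) : ℝ) * C₀, by nlinarith, ?_⟩
  intro I hI θ θ' hθ δ hδ m hm x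
  obtain ⟨a, ha0, haI, ha⟩ := h0 I hI
  have hrI := T9h91.NF.rt_nonneg I
  have m1 : ∀ j, ee (lf θ (a * RingOfIntegers.basis K j)) =
    ee (lf θ' (a * RingOfIntegers.basis K j)) := fun j => hθ _ (haI j)
  have hβ0 : ∀ y : 𝓞 K, lf (fun i => θ i - θ' i - m i) y = 0 := by
    refine lf_eq_zero ha0 fun j => ?_
    have e1 := lf_split θ θ' m (a * RingOfIntegers.basis K j)
    rw [m1 j] at e1
    have e2 : ee (lf (fun i => θ i - θ' i - m i) (a * RingOfIntegers.basis K j)) = 1 :=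
      (mul_right_eq_self₀.1 e1.symm).resolve_right (ee_ne _)
    obtain ⟨k, hk⟩ := int_of_ee e2
    have h3 : |lf (fun i => θ i - θ' i - m i) (a * RingOfIntegers.basis K j)| < 1 := by
      refine lt_of_le_of_lt (lf_le (M := C₀ * T9h91.NF.rt I) (by positivity) hm
        fun i => ha i j) ?_
      calc (Fintype.card (T9h91.NF.Ib K) : ℝ) * (C₀ * T9h91.NF.rt I * δ) =
          (Fintype.card (T9h91.NF.Ib K) : ℝ) * C₀ * T9h91.NF.rt I * δ := by ring
        _ < 1 := hδ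
    rw [hk] at h3 ⊢
    have h4 : |k| < 1 := by exact_mod_cast h3
    rw [Int.abs_lt_one_iff] at h4
    exact_mod_cast h4
  rw [lf_split θ θ' m x, hβ0 x, ee_zero, mul_one]

theorem nm_le_E (x : 𝓞 K) : T9h91.NF.nm x ≤ ‖Pool.Agent.T9h11.NF.E (x : K)‖ := by
  rw [T9h91.NF.nm, norm_eq_sup'_normAtPlace]
  refine Finset.sup'_le _ _ fun w _ => ?_
  have h1 : normAtPlace w (T9h91.NF.em x) = w (x : K) := normAtPlace_apply _ _
  rw [h1, ← InfinitePlace.norm_embedding_eq]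
  exact norm_le_pi_norm (Pool.Agent.T9h11.NF.E (x : K)) w

variable (K) in
/-- the large sieve -/
theorem lSieveK : Pool.Agent.T9h11.NF.LSieveK K := by
  obtain ⟨C₀, hC₀, h0, -⟩ := T9h91.NF.exists_equiv K
  obtain ⟨C₁, hC₁, h1⟩ := exists_sep' K
  refine ⟨(24 * (C₀ + 1 + 2 * C₁)) ^ T9h91.NF.dg K * 2 ^ T9h91.NF.dg K,
    one_le_mul_of_one_le_of_one_le (one_le_pow₀ (by linarith)) (one_le_pow₀ (by norm_num)), ?_⟩
  intro D R hD hR 𝒳 hnorm hagree S a hS
  choose θ hθ using fun r : 𝒳 => exists_theta' (hnorm r.1 r.2)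
  set q : ℝ := R ^ ((1 : ℝ) / (T9h91.NF.dg K : ℝ)) with hq
  have hqd : q ^ T9h91.NF.dg K = R := by
    rw [hq, ← Real.rpow_natCast, ← Real.rpow_mul (by linarith)]
    have : ((T9h91.NF.dg K : ℕ) : ℝ) ≠ 0 := by exact_mod_cast T9h91.NF.dg_pos.ne'
    rw [one_div_mul_cancel this, Real.rpow_one]
  have hq1 : 1 ≤ q := Real.one_le_rpow hR (by positivity)
  -- coordinates
  obtain ⟨e⟩ : Nonempty (Fin (T9h91.NF.dg K) ≃ T9h91.NF.Ib K) :=
    ⟨(Fintype.equivFinOfCardEq T9h91.NF.card_Ib).symm⟩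
  let vec : 𝓞 K → Fin (T9h91.NF.dg K) → ℤ := fun x j => T9h91.NF.co x (e j)
  let inv : (Fin (T9h91.NF.dg K) → ℤ) → 𝓞 K := fun n =>
    ∑ i, n (e.symm i) • RingOfIntegers.basis K i
  have hinv : ∀ x, inv (vec x) = x := by
    intro x
    conv_rhs => rw [T9h91.NF.co_sum x]
    simp [inv, vec]
  have hvec : Function.Injective vec := Function.LeftInverse.injective hinv
  let α : 𝒳 → Fin (T9h91.NF.dg K) → ℝ := fun r j => θ r (e j)
  have hdt : ∀ (r : 𝒳) x, r.1 x = ee (dt (vec x) (α r)) := by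
    intro r x
    rw [hθ r x]
    congr 1
    simp only [lf, dt, vec, α]
    exact (Equiv.sum_comp e fun i => (T9h91.NF.co x i : ℝ) * θ r i).symm
  set N : ℕ := ⌈C₀ * D⌉₊ with hN
  have hN0 : C₀ * D ≤ N := Nat.le_ceil _
  have hN1 : (N : ℝ) < C₀ * D + 1 := Nat.ceil_lt_add_one (by positivity)
  have hNpos : 1 ≤ N := by
    rw [hN, Nat.one_le_ceil_iff]
    positivity
  set δ : ℝ := 1 / (2 * C₁ * q) with hδ
  have hδ0 : 0 < δ := by positivity
  have hsep : ∀ r s : 𝒳, r ≠ s → ∀ m : Fin (T9h91.NF.dg K) → ℤ,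
      ∃ j, δ ≤ |α r j - α s j - m j| := by
    intro r s hrs m
    by_contra hcon
    push Not at hcon
    obtain ⟨I, hI0, hIR, hI⟩ := hagree r.1 r.2 s.1 s.2 fun h => hrs (Subtype.ext h)
    apply hrs
    apply Subtype.ext
    ext x
    rw [hθ r x, hθ s x]
    refine h1 I hI0 (θ r) (θ s) (fun y hy => ?_) δ ?_
      (fun i => m (e.symm i)) (fun i => ?_) x
    · rw [← hθ r y, ← hθ s y]; exact hI y hy
    · have g1 : T9h91.NF.rt I ≤ q := Real.rpow_le_rpow (by positivity) hIR (by positivity)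
      calc C₁ * T9h91.NF.rt I * δ ≤ C₁ * q * δ :=
            mul_le_mul_of_nonneg_right (mul_le_mul_of_nonneg_left g1 (by linarith)) hδ0.le
        _ = 1 / 2 := by
            rw [hδ]
            field_simp
        _ < 1 := by norm_num
    · have := hcon (e.symm i)
      simp only [α, Equiv.apply_symm_apply] at this
      exact this
  set T := S.image vec with hT
  have hTB : T ⊆ Bx (T9h91.NF.dg K) N := by
    intro n hn
    obtain ⟨x, hx, rfl⟩ := mem_image.1 hn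
    refine Fintype.mem_piFinset.2 fun j => ?_
    have g1 : |(T9h91.NF.co x (e j) : ℝ)| ≤ N :=
      ((h0 x (e j)).trans (mul_le_mul_of_nonneg_left ((nm_le_E x).trans (hS x hx))
        (by linarith))).trans hN0
    have g2 : |T9h91.NF.co x (e j)| ≤ (N : ℤ) := by exact_mod_cast g1
    rw [mem_Icc]
    exact abs_le.1 g2
  let b : (Fin (T9h91.NF.dg K) → ℤ) → ℂ := fun n => if n ∈ T then a (inv n) else 0
  have k1 : ∀ r : 𝒳, ∑ n ∈ Bx (T9h91.NF.dg K) N, b n * ee (dt n (α r)) =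
      ∑ x ∈ S, a x * r.1 x := by
    intro r
    have g1 : ∑ n ∈ Bx (T9h91.NF.dg K) N, b n * ee (dt n (α r)) =
        ∑ n ∈ T, a (inv n) * ee (dt n (α r)) := by
      rw [← sum_subset hTB]
      · exact sum_congr rfl fun n hn => by simp only [b, if_pos hn]
      · intro n _ hn
        simp only [b, if_neg hn, zero_mul]
    rw [g1, hT, sum_image hvec.injOn]
    exact sum_congr rfl fun x _ => by rw [hinv, hdt r x]
  have k2 : ∑ n ∈ Bx (T9h91.NF.dg K) N, ‖b n‖ ^ 2 = ∑ x ∈ S, ‖a x‖ ^ 2 := by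
    have g1 : ∑ n ∈ Bx (T9h91.NF.dg K) N, ‖b n‖ ^ 2 = ∑ n ∈ T, ‖a (inv n)‖ ^ 2 := by
      rw [← sum_subset hTB]
      · exact sum_congr rfl fun n hn => by simp only [b, if_pos hn]
      · intro n _ hn
        simp only [b, if_neg hn, norm_zero]
        norm_num
    rw [g1, hT, sum_image hvec.injOn]
    exact sum_congr rfl fun x _ => by rw [hinv]
  have k3 := large_sieve α hδ0 hsep hNpos b
  rw [k2, sum_congr rfl fun r _ => by rw [k1 r]] at k3
  rw [← sum_coe_sort 𝒳 fun χ => ‖∑ x ∈ S, a x * χ x‖ ^ 2]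
  refine k3.trans (mul_le_mul_of_nonneg_right ?_ (sum_nonneg fun _ _ => by positivity))
  have k4 : 1 / δ = 2 * C₁ * q := by rw [hδ, one_div_one_div]
  rw [k4]
  have k5 : 24 * ((N : ℝ) + 2 * C₁ * q) ≤ 24 * (C₀ + 1 + 2 * C₁) * (2 * max D q) := by
    have l1 := le_max_left D q
    have l2 := le_max_right D q
    have l3 : 0 ≤ max D q := by linarith
    nlinarith
  have k6 : (max D q) ^ T9h91.NF.dg K ≤ D ^ T9h91.NF.dg K + R := by
    rcases le_total D q with h' | h'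
    · rw [max_eq_right h', hqd]
      have : 0 ≤ D ^ T9h91.NF.dg K := by positivity
      linarith
    · rw [max_eq_left h']
      linarith
  obtain ⟨A, hA⟩ : ∃ A : ℝ, A = 24 * (C₀ + 1 + 2 * C₁) := ⟨_, rfl⟩
  have hA0 : 0 ≤ A := by rw [hA]; positivity
  rw [← hA] at k5 ⊢
  calc (24 * ((N : ℝ) + 2 * C₁ * q)) ^ T9h91.NF.dg K ≤ (A * (2 * max D q)) ^ T9h91.NF.dg K :=
        pow_le_pow_left₀ (by positivity) k5 _
    _ = A ^ T9h91.NF.dg K * 2 ^ T9h91.NF.dg K * (max D q) ^ T9h91.NF.dg K := by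
        rw [mul_pow, mul_pow, mul_assoc]
    _ ≤ A ^ T9h91.NF.dg K * 2 ^ T9h91.NF.dg K * (D ^ T9h91.NF.dg K + R) :=
        mul_le_mul_of_nonneg_left k6 (by positivity)

variable (K) in
/-- (LSieveKOf) -/
theorem lSieveKOf : Pool.Agent.T9h11.NF.LSieveKOf K := fun _ _ => lSieveK K

end Pool.Agent.T9h58.NF
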